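import Pool.Agent.TH941.MR.Up
import Pool.Agent.TH2.NU.Final
import Pool.Agent.TH105.NU.All

/-! One open set for all near-uniform vectors, and the restriction maps (helper941). -/

set_option autoImplicit false

namespace Pool.Agent.TH941.MR

open MvPolynomial

variable {k : Type} [Field k]

theorem forms_eq {n : ℕ} {P : Fin n → Fin 2 → k} {d : ℕ} {w : Fin n → ℕ}
    (h : Pool.Agent.H932R3.ExpDim k w P d) :
    Module.finrank k ↥(forms P d w) = (d + 2).choose 2 - ∑ i, (w i + 1).choose 2 := h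

/-- one open set for all vectors with values `m`, `m + 1` -/
theorem common [CharZero k] {n m : ℕ} {Q : (Fin n → ℕ) → ℕ → Prop}
    (H : ∀ w : Fin n → ℕ, (∀ i, w i = m ∨ w i = m + 1) →
      ∃ F : MvPolynomial (Fin n × Fin 2) ℚ, F ≠ 0 ∧ ∀ (P : Fin n → Fin 2 → k),
        MvPolynomial.aeval (fun ij : Fin n × Fin 2 => P ij.1 ij.2) F ≠ 0 →
        ∀ d : ℕ, Q w d → Pool.Agent.H932R3.ExpDim k w P d) :
    ∃ G : MvPolynomial (Fin n × Fin 2) k, G ≠ 0 ∧ ∀ (P : Fin n → Fin 2 → k),
      eval (fun ij : Fin n × Fin 2 => P ij.1 ij.2) G ≠ 0 →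
      ∀ w : Fin n → ℕ, (∀ i, w i = m ∨ w i = m + 1) → ∀ d : ℕ, Q w d →
        Module.finrank k ↥(forms P d w) = (d + 2).choose 2 - ∑ i, (w i + 1).choose 2 := by
  classical
  have H' : ∀ w : Fin n → ℕ, ∃ F : MvPolynomial (Fin n × Fin 2) ℚ, F ≠ 0 ∧
      ∀ (P : Fin n → Fin 2 → k), MvPolynomial.aeval (fun ij : Fin n × Fin 2 => P ij.1 ij.2) F ≠ 0 →
        (∀ i, w i = m ∨ w i = m + 1) → ∀ d : ℕ, Q w d → Pool.Agent.H932R3.ExpDim k w P d := by
    intro w
    by_cases hw : ∀ i, w i = m ∨ w i = m + 1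
    · obtain ⟨F, hF, h⟩ := H w hw
      exact ⟨F, hF, fun P hP _ => h P hP⟩
    · exact ⟨1, one_ne_zero, fun P _ h => absurd h hw⟩
  choose F hF h using H'
  let T : Finset (Fin n → ℕ) := Fintype.piFinset fun _ => {m, m + 1}
  refine ⟨(∏ v ∈ T, F v).map (algebraMap ℚ k), ?_, fun P hP w hw d hQ => ?_⟩
  · intro h0
    have h1 : (∏ v ∈ T, F v) = 0 := by
      apply MvPolynomial.map_injective (algebraMap ℚ k) (algebraMap ℚ k).injective
      rw [h0, map_zero]
    rw [Finset.prod_eq_zero_iff] at h1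
    obtain ⟨v, _, hv⟩ := h1
    exact hF v hv
  · rw [MvPolynomial.eval_map] at hP
    have hP' : MvPolynomial.aeval (fun ij : Fin n × Fin 2 => P ij.1 ij.2) (∏ v ∈ T, F v) ≠ 0 := hP
    rw [map_prod, Finset.prod_ne_zero_iff] at hP'
    have hwT : w ∈ T := by
      rw [Fintype.mem_piFinset]
      intro i
      rw [Finset.mem_insert, Finset.mem_singleton]
      exact hw i
    exact forms_eq (h w P (hP' w hwT) hw d hQ)

/-- the expected dimension for all near-uniform vectors at `n` points -/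
theorem near_all : ∃ N0 : ℕ, ∀ n : ℕ, (N0 ≤ n ∨ (144 ≤ n ∧ 4 ∣ n)) → 10 ≤ n ∧
    ∀ m : ℕ, 1 ≤ m → ∀ w : Fin n → ℕ, (∀ i, w i = m ∨ w i = m + 1) →
      ∀ {L : Type} [Field L] [CharZero L],
      ∃ F : MvPolynomial (Fin n × Fin 2) ℚ, F ≠ 0 ∧ ∀ (P : Fin n → Fin 2 → L),
        MvPolynomial.aeval (fun ij : Fin n × Fin 2 => P ij.1 ij.2) F ≠ 0 →
        ∀ d : ℕ, Pool.Agent.H932R3.ExpDim L w P d := by
  obtain ⟨N1, h1⟩ := Pool.Agent.TH105.NU.expDim_near
  refine ⟨max N1 144, fun n hn => ?_⟩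
  rcases hn with hn | ⟨hn, N, rfl⟩
  · exact ⟨le_trans (by norm_num) ((le_max_right _ _).trans hn),
      h1 n ((le_max_left _ _).trans hn)⟩
  · exact ⟨by omega, fun m hm w hw => Pool.Agent.TH2.NU.near4 (by omega) hm hw⟩

/-- all degrees but one -/
theorem critical {n m : ℕ} (hn : 1 ≤ n) {w : Fin n → ℕ} (hw : ∀ i, w i = m ∨ w i = m + 1) :
    ∃ d0 : ℕ, (∀ d < d0, (d + 2).choose 2 ≤ ∑ i, (w i + 1).choose 2) ∧
      (∀ d, d0 ≤ d → ∑ i, (w i + 1).choose 2 < (d + 2).choose 2) ∧
      ∀ d, d0 < d → ∑ i, (w i + 1).choose 2 + (m + 2) ≤ (d + 2).choose 2 := by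
  classical
  have hex : ∃ d : ℕ, ∑ i, (w i + 1).choose 2 < (d + 2).choose 2 := by
    refine ⟨∑ i, (w i + 1).choose 2, ?_⟩
    obtain ⟨A, hA⟩ : ∃ A, A = ∑ i, (w i + 1).choose 2 := ⟨_, rfl⟩
    rw [← hA, Nat.choose_succ_succ (A + 1) 1, Nat.choose_one_right]
    simp only [Nat.succ_eq_add_one]
    omega
  refine ⟨Nat.find hex, fun d hd => not_lt.1 (Nat.find_min hex hd), fun d hd =>
    lt_of_lt_of_le (Nat.find_spec hex) (Nat.choose_le_choose 2 (by omega)), fun d hd => ?_⟩
  have h1 := Nat.find_spec hex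
  obtain ⟨d0, hd0⟩ : ∃ d0, d0 = Nat.find hex := ⟨_, rfl⟩
  rw [← hd0] at h1 hd
  have h2 : (d0 + 2).choose 2 + (d0 + 2) ≤ (d + 2).choose 2 := by
    have h3 : (d0 + 1 + 2).choose 2 ≤ (d + 2).choose 2 := Nat.choose_le_choose 2 (by omega)
    rw [Nat.choose_succ_succ (d0 + 2) 1, Nat.choose_one_right] at h3
    simp only [Nat.succ_eq_add_one, Nat.reduceAdd] at h3
    omega
  have h4 : m ≤ d0 := by
    by_contra hlt
    push Not at hlt
    have h5 : (m + 1).choose 2 ≤ ∑ i, (w i + 1).choose 2 := by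
      have h6 := Finset.single_le_sum (f := fun i => (w i + 1).choose 2) (fun i _ => Nat.zero_le _)
        (Finset.mem_univ (⟨0, hn⟩ : Fin n))
      refine le_trans (Nat.choose_le_choose 2 ?_) h6
      rcases hw ⟨0, hn⟩ with h | h <;> omega
    have h7 : (d0 + 2).choose 2 ≤ (m + 1).choose 2 := Nat.choose_le_choose 2 (by omega)
    omega
  omega

/-- surjectivity above the critical degree -/
theorem surj_of {n : ℕ} {P : Fin n → Fin 2 → k} {d : ℕ} {w : Fin n → ℕ} {j : Fin n}
    (h1 : Module.finrank k ↥(forms P d w) = (d + 2).choose 2 - ∑ i, (w i + 1).choose 2)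
    (h : Function.Injective (rho P d w j) ∨ Function.Surjective (rho P d w j))
    (hd : ∑ i, (w i + 1).choose 2 + (w j + 1) ≤ (d + 2).choose 2) :
    Function.Surjective (rho P d w j) := by
  rcases h with h | h
  · obtain ⟨hfin2, hb⟩ := binary_le (k := k) (w j)
    have h2 := LinearMap.finrank_range_of_inj h
    rw [← LinearMap.range_eq_top]
    apply Submodule.eq_top_of_finrank_eq
    have hle2 := Submodule.finrank_le (LinearMap.range (rho P d w j))
    omega
  · exact h

theorem bot_of {n : ℕ} {P : Fin n → Fin 2 → k} {d : ℕ} {w : Fin n → ℕ}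
    (h1 : Module.finrank k ↥(forms P d w) = (d + 2).choose 2 - ∑ i, (w i + 1).choose 2)
    (h : (d + 2).choose 2 ≤ ∑ i, (w i + 1).choose 2) : forms P d w = ⊥ := by
  have hfin3 : Module.Finite k (homogeneousSubmodule (Fin 3) k d) :=
    Module.Finite.iff_fg.2 (homogeneousSubmodule_fg (Fin 3) k d)
  have hle : forms P d w ≤ homogeneousSubmodule (Fin 3) k d := inf_le_left
  have := Submodule.finiteDimensional_of_le hle
  apply Submodule.finrank_eq_zero.1
  omega

/-- surjectivity on all exceptional curves above the critical degree -/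
theorem surj_all {n m : ℕ} {P : Fin n → Fin 2 → k}
    (h : ∀ w : Fin n → ℕ, (∀ i, w i = m ∨ w i = m + 1) → ∀ d : ℕ,
      Module.finrank k ↥(forms P d w) = (d + 2).choose 2 - ∑ i, (w i + 1).choose 2)
    {w : Fin n → ℕ} (hw : ∀ i, w i = m ∨ w i = m + 1) {d : ℕ}
    (hd1 : ∑ i, (w i + 1).choose 2 < (d + 2).choose 2)
    (hd2 : ∑ i, (w i + 1).choose 2 + (m + 2) ≤ (d + 1 + 2).choose 2) (j : Fin n) :
    Function.Surjective (rho P (d + 1) w j) := by
  classical
  have hupd : ∀ {v : Fin n → ℕ}, (∀ i, v i = m ∨ v i = m + 1) → ∀ j, v j = m →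
      ∀ i, Function.update v j (v j + 1) i = m ∨ Function.update v j (v j + 1) i = m + 1 := by
    intro v hv j hj i
    by_cases hi : i = j
    · subst hi
      rw [Function.update_self, hj]
      exact Or.inr rfl
    · rw [Function.update_of_ne hi]
      exact hv i
  rcases hw j with hj | hj
  · refine surj_of (h w hw _) (maxRank_of (h w hw _) (h _ (hupd hw j hj) _)) ?_
    rw [hj]
    omega
  · -- the vector with one less at `j`
    obtain ⟨v, hv⟩ : ∃ v : Fin n → ℕ, v = Function.update w j m := ⟨_, rfl⟩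
    have hvj : v j = m := by rw [hv, Function.update_self]
    have hvi : ∀ i, i ≠ j → w i = v i := fun i hi => by rw [hv, Function.update_of_ne hi]
    have hvn : ∀ i, v i = m ∨ v i = m + 1 := by
      intro i
      by_cases hi : i = j
      · left
        rw [hi, hvj]
      · rw [← hvi i hi]
        exact hw i
    have hsum : ∑ i, (w i + 1).choose 2 = ∑ i, (v i + 1).choose 2 + (m + 1) := by
      rw [← Finset.add_sum_erase _ _ (Finset.mem_univ j),
        ← Finset.add_sum_erase Finset.univ (fun i => (v i + 1).choose 2) (Finset.mem_univ j)]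
      rw [hj, hvj, Nat.choose_succ_succ (m + 1) 1, Nat.choose_one_right]
      have : ∑ x ∈ Finset.univ.erase j, (w x + 1).choose 2 =
          ∑ x ∈ Finset.univ.erase j, (v x + 1).choose 2 :=
        Finset.sum_congr rfl fun x hx => by rw [hvi x (Finset.ne_of_mem_erase hx)]
      rw [this]
      simp only [Nat.succ_eq_add_one, Nat.reduceAdd]
      omega
    refine surj_up (v := v) (by rw [hj, hvj]) hvi ?_
    refine surj_of (h v hvn _) (maxRank_of (h v hvn _) (h _ (hupd hvn j hvj) _)) ?_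
    rw [hvj]
    omega

end Pool.Agent.TH941.MR
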