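import Mathlib

/-! The leading form of a plane curve at a point, in terms of ideal powers (helper941). -/

set_option autoImplicit false

namespace Pool.Agent.TH941.MR

open MvPolynomial

variable {k : Type} [Field k]

/-- Forms of degree `d` vanishing to order at least `w i` at the points `(P i 0 : P i 1 : 1)`. -/
noncomputable def forms {n : ℕ} (P : Fin n → Fin 2 → k) (d : ℕ) (w : Fin n → ℕ) :
    Submodule k (MvPolynomial (Fin 3) k) :=
  homogeneousSubmodule (Fin 3) k d ⊓
    Submodule.restrictScalars k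
      (⨅ i : Fin n, (Ideal.span {X 0 - C (P i 0) * X 2, X 1 - C (P i 1) * X 2} :
        Ideal (MvPolynomial (Fin 3) k)) ^ (w i))

/-- the local equation `F (a + x, b + y, 1)` at the point `(a : b : 1)` -/
noncomputable def loc (p : Fin 2 → k) : MvPolynomial (Fin 3) k →ₐ[k] MvPolynomial (Fin 2) k :=
  aeval ![X 0 + C (p 0), X 1 + C (p 1), 1]

/-- vanishing to order `a` kills the terms of degree `< a` of the local equation -/
theorem loc_of_mem {p : Fin 2 → k} {a : ℕ} {F : MvPolynomial (Fin 3) k}
    (h : F ∈ (Ideal.span {X 0 - C (p 0) * X 2, X 1 - C (p 1) * X 2} :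
        Ideal (MvPolynomial (Fin 3) k)) ^ a) {e : ℕ} (he : e < a) :
    homogeneousComponent e (loc p F) = 0 := by
  have h1 : Ideal.map (loc p) (Ideal.span {X 0 - C (p 0) * X 2, X 1 - C (p 1) * X 2} :
        Ideal (MvPolynomial (Fin 3) k)) ≤ idealOfVars (Fin 2) k := by
    rw [Ideal.map_span, Ideal.span_le]
    rintro _ ⟨G, hG, rfl⟩
    rcases hG with rfl | rfl
    · have : loc p (X 0 - C (p 0) * X 2) = X 0 := by simp [loc]
      rw [SetLike.mem_coe, this]
      exact Ideal.subset_span ⟨0, rfl⟩
    · have : loc p (X 1 - C (p 1) * X 2) = X 1 := by simp [loc]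
      rw [SetLike.mem_coe, this]
      exact Ideal.subset_span ⟨1, rfl⟩
  have h2 := Ideal.mem_map_of_mem (loc p) h
  rw [Ideal.map_pow] at h2
  have h3 := Ideal.pow_right_mono h1 a h2
  rw [mem_pow_idealOfVars_iff] at h3
  refine homogeneousComponent_eq_zero' _ _ fun s hs => ?_
  have := h3 s hs
  omega

/-- translation moving `(u, v, 1)` to `(0, 0, 1)` -/
noncomputable def trans (u v : k) : MvPolynomial (Fin 3) k →ₐ[k] MvPolynomial (Fin 3) k :=
  aeval ![X 0 + C u * X 2, X 1 + C v * X 2, X 2]

theorem trans_neg (u v : k) (F : MvPolynomial (Fin 3) k) : trans (-u) (-v) (trans u v F) = F := by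
  have : (trans (-u) (-v)).comp (trans u v) = AlgHom.id k (MvPolynomial (Fin 3) k) := by
    apply MvPolynomial.algHom_ext
    intro i
    fin_cases i <;> simp [trans]
  exact DFunLike.congr_fun this F

theorem trans_hom (u v : k) {F : MvPolynomial (Fin 3) k} {n : ℕ} (hF : F.IsHomogeneous n) :
    (trans u v F).IsHomogeneous n := by
  have := hF.aeval (n := 1) ![X 0 + C u * X 2, X 1 + C v * X 2, (X 2 : MvPolynomial (Fin 3) k)] ?_
  · rw [one_mul] at this
    exact this
  · intro i
    fin_cases i
    · exact (isHomogeneous_X _ _).add (isHomogeneous_C_mul_X _ _)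
    · exact (isHomogeneous_X _ _).add (isHomogeneous_C_mul_X _ _)
    · exact isHomogeneous_X _ _

/-- dehomogenization -/
noncomputable def dh : MvPolynomial (Fin 3) k →ₐ[k] MvPolynomial (Fin 2) k :=
  aeval ![X 0, X 1, 1]

theorem loc_eq (p : Fin 2 → k) (F : MvPolynomial (Fin 3) k) :
    loc p F = dh (trans (p 0) (p 1) F) := by
  have : loc p = (dh : MvPolynomial (Fin 3) k →ₐ[k] _).comp (trans (p 0) (p 1)) := by
    apply MvPolynomial.algHom_ext
    intro i
    fin_cases i <;> simp [trans, loc, dh]
  rw [this]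
  rfl

/-- the exponent without the last entry -/
noncomputable def cut (s : Fin 3 →₀ ℕ) : Fin 2 →₀ ℕ :=
  Finsupp.single 0 (s 0) + Finsupp.single 1 (s 1)

theorem cut_zero (s : Fin 3 →₀ ℕ) : cut s 0 = s 0 := by simp [cut]

theorem cut_one (s : Fin 3 →₀ ℕ) : cut s 1 = s 1 := by simp [cut]

theorem degree_cut (s : Fin 3 →₀ ℕ) : (cut s).degree = s 0 + s 1 := by
  rw [Finsupp.degree_eq_sum, Fin.sum_univ_two, cut_zero, cut_one]

theorem dh_monomial (s : Fin 3 →₀ ℕ) (a : k) : dh (monomial s a) = monomial (cut s) a := by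
  rw [dh, aeval_monomial, Finsupp.prod_fintype _ _ (by simp), Fin.prod_univ_three]
  simp only [Matrix.cons_val_zero, Matrix.cons_val_one, Matrix.cons_val, one_pow, mul_one]
  rw [algebraMap_eq, cut, X_pow_eq_monomial, X_pow_eq_monomial, monomial_mul, C_mul_monomial,
    mul_one, mul_one]

theorem coeff_dh {T : MvPolynomial (Fin 3) k} {d : ℕ} (hT : T.IsHomogeneous d) (s : Fin 3 →₀ ℕ)
    (hs : s 0 + s 1 + s 2 = d) : coeff (cut s) (dh T) = coeff s T := by
  classical
  conv_lhs => rw [T.as_sum]
  rw [map_sum, coeff_sum]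
  simp only [dh_monomial, coeff_monomial]
  rw [Finset.sum_eq_single s]
  · rw [if_pos rfl]
  · intro t ht hne
    rw [if_neg]
    intro h
    apply hne
    have hdeg : t 0 + t 1 + t 2 = d := by
      have := hT (mem_support_iff.1 ht)
      rw [Finsupp.weight_apply, Finsupp.sum_fintype _ _ (by simp)] at this
      simp [Fin.sum_univ_three] at this
      exact this
    have h0 := DFunLike.congr_fun h 0
    have h1 := DFunLike.congr_fun h 1
    rw [cut_zero, cut_zero] at h0
    rw [cut_one, cut_one] at h1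
    ext i
    fin_cases i
    · exact h0
    · exact h1
    · show t 2 = s 2
      omega
  · intro h
    rw [if_pos rfl]
    exact notMem_support_iff.1 h

/-- the converse for forms -/
theorem mem_of_loc {p : Fin 2 → k} {a d : ℕ} {F : MvPolynomial (Fin 3) k} (hF : F.IsHomogeneous d)
    (h : ∀ e < a, homogeneousComponent e (loc p F) = 0) :
    F ∈ (Ideal.span {X 0 - C (p 0) * X 2, X 1 - C (p 1) * X 2} :
        Ideal (MvPolynomial (Fin 3) k)) ^ a := by
  classical
  have hT := trans_hom (p 0) (p 1) hF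
  rw [← trans_neg (p 0) (p 1) F, (trans (p 0) (p 1) F).as_sum, map_sum]
  apply Ideal.sum_mem
  intro s hs
  have hdeg : s 0 + s 1 + s 2 = d := by
    have := hT (mem_support_iff.1 hs)
    rw [Finsupp.weight_apply, Finsupp.sum_fintype _ _ (by simp)] at this
    simp [Fin.sum_univ_three] at this
    exact this
  have hge : a ≤ s 0 + s 1 := by
    by_contra hlt
    push Not at hlt
    have h1 := congrArg (coeff (cut s)) (h _ hlt)
    rw [coeff_homogeneousComponent, degree_cut, if_pos rfl, loc_eq, coeff_dh hT s hdeg,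
      coeff_zero] at h1
    exact (mem_support_iff.1 hs) h1
  have h0 : X 0 - C (p 0) * X 2 ∈ (Ideal.span {X 0 - C (p 0) * X 2, X 1 - C (p 1) * X 2} :
        Ideal (MvPolynomial (Fin 3) k)) := Ideal.subset_span (Or.inl rfl)
  have h1 : X 1 - C (p 1) * X 2 ∈ (Ideal.span {X 0 - C (p 0) * X 2, X 1 - C (p 1) * X 2} :
        Ideal (MvPolynomial (Fin 3) k)) := Ideal.subset_span (Or.inr rfl)
  rw [trans, aeval_monomial, Finsupp.prod_fintype _ _ (by simp)]
  simp only [Fin.prod_univ_three, Matrix.cons_val_zero, Matrix.cons_val_one, Matrix.cons_val]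
  apply Ideal.mul_mem_left
  apply Ideal.mul_mem_right
  apply Ideal.pow_le_pow_right hge
  rw [pow_add]
  apply Ideal.mul_mem_mul
  · apply Ideal.pow_mem_pow
    convert h0 using 1
    simp [sub_eq_add_neg]
  · apply Ideal.pow_mem_pow
    convert h1 using 1
    simp [sub_eq_add_neg]

/-- The restriction map from `H⁰(d H - ∑ w i E i)` to the exceptional curve `E j`: the section given
by `F` is sent to the term of degree `w j` of the local equation at the `j`-th point. -/
noncomputable def rho {n : ℕ} (P : Fin n → Fin 2 → k) (d : ℕ) (w : Fin n → ℕ) (j : Fin n) :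
    forms P d w →ₗ[k] homogeneousSubmodule (Fin 2) k (w j) :=
  LinearMap.codRestrict _
    ((homogeneousComponent (w j)) ∘ₗ (loc (P j)).toLinearMap ∘ₗ (forms P d w).subtype)
    fun _ => homogeneousComponent_mem _ _

theorem rho_apply {n : ℕ} (P : Fin n → Fin 2 → k) (d : ℕ) (w : Fin n → ℕ) (j : Fin n)
    (F : forms P d w) : ((rho P d w j F : homogeneousSubmodule (Fin 2) k (w j)) :
      MvPolynomial (Fin 2) k) = homogeneousComponent (w j) (loc (P j) F) := rfl

/-- the kernel of the restriction map -/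
theorem ker_rho {n : ℕ} {P : Fin n → Fin 2 → k} {d : ℕ} {w : Fin n → ℕ} {j : Fin n}
    {F : forms P d w} (h : rho P d w j F = 0) :
    (F : MvPolynomial (Fin 3) k) ∈ forms P d (Function.update w j (w j + 1)) := by
  obtain ⟨hF1, hF2⟩ := F.2
  refine ⟨hF1, ?_⟩
  have hF1' : (F : MvPolynomial (Fin 3) k).IsHomogeneous d := hF1
  have hF2' : (F : MvPolynomial (Fin 3) k) ∈ (⨅ i : Fin n, (Ideal.span {X 0 - C (P i 0) * X 2,
      X 1 - C (P i 1) * X 2} : Ideal (MvPolynomial (Fin 3) k)) ^ (w i)) := hF2
  show (F : MvPolynomial (Fin 3) k) ∈ (⨅ i : Fin n, (Ideal.span {X 0 - C (P i 0) * X 2,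
      X 1 - C (P i 1) * X 2} : Ideal (MvPolynomial (Fin 3) k)) ^
        (Function.update w j (w j + 1) i))
  rw [Ideal.mem_iInf] at hF2' ⊢
  intro i
  by_cases hi : i = j
  · subst hi
    rw [Function.update_self]
    refine mem_of_loc hF1' fun e he => ?_
    rcases lt_or_eq_of_le (Nat.le_of_lt_succ he) with h1 | h1
    · exact loc_of_mem (hF2' i) h1
    · rw [h1, ← rho_apply, h]
      rfl
  · rw [Function.update_of_ne hi]
    exact hF2' i

/-- binary forms of degree `m` -/
theorem binary_le (m : ℕ) : Module.Finite k (homogeneousSubmodule (Fin 2) k m) ∧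
    Module.finrank k (homogeneousSubmodule (Fin 2) k m) ≤ m + 1 := by
  let g : homogeneousSubmodule (Fin 2) k m →ₗ[k] (Fin (m + 1) → k) :=
    LinearMap.pi fun i => (lcoeff k (Finsupp.single 0 (i : ℕ) +
      Finsupp.single 1 (m - i))) ∘ₗ (homogeneousSubmodule (Fin 2) k m).subtype
  have hg : Function.Injective g := by
    rw [← LinearMap.ker_eq_bot, LinearMap.ker_eq_bot']
    intro F hF
    apply Subtype.ext
    ext s
    rw [ZeroMemClass.coe_zero, coeff_zero]
    by_contra hne
    have hdeg : s 0 + s 1 = m := by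
      have := F.2 hne
      rw [Finsupp.weight_apply, Finsupp.sum_fintype _ _ (by simp)] at this
      simp [Fin.sum_univ_two] at this
      exact this
    have h1 := congrFun hF ⟨s 0, by omega⟩
    have h2 : (Finsupp.single 0 (s 0) + Finsupp.single 1 (m - s 0) : Fin 2 →₀ ℕ) = s := by
      ext i
      fin_cases i
      · simp
      · simp
        omega
    apply hne
    rw [← h2]
    exact h1
  refine ⟨Module.Finite.of_injective g hg, ?_⟩
  have := LinearMap.finrank_le_finrank_of_injective hg
  rwa [Module.finrank_fin_fun] at this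

/-- **maximal rank** from the two dimensions -/
theorem maxRank_of {n : ℕ} {P : Fin n → Fin 2 → k} {d : ℕ} {w : Fin n → ℕ} {j : Fin n}
    (h1 : Module.finrank k ↥(forms P d w) = (d + 2).choose 2 - ∑ i, (w i + 1).choose 2)
    (h2 : Module.finrank k ↥(forms P d (Function.update w j (w j + 1))) =
      (d + 2).choose 2 - ∑ i, (Function.update w j (w j + 1) i + 1).choose 2) :
    Function.Injective (rho P d w j) ∨ Function.Surjective (rho P d w j) := by
  classical
  have hfin3 : Module.Finite k (homogeneousSubmodule (Fin 3) k d) :=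
    Module.Finite.iff_fg.2 (homogeneousSubmodule_fg (Fin 3) k d)
  have hle : ∀ v : Fin n → ℕ, forms P d v ≤ homogeneousSubmodule (Fin 3) k d := fun v => inf_le_left
  have hfinF : ∀ v : Fin n → ℕ, Module.Finite k (forms P d v) := fun v =>
    Submodule.finiteDimensional_of_le (hle v)
  have hsum : ∑ i, (Function.update w j (w j + 1) i + 1).choose 2 =
      (w j + 1) + ∑ i, (w i + 1).choose 2 := by
    rw [← Finset.add_sum_erase _ _ (Finset.mem_univ j),
      ← Finset.add_sum_erase Finset.univ (fun i => (w i + 1).choose 2) (Finset.mem_univ j)]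
    rw [Function.update_self, Nat.choose_succ_succ (w j + 1) 1, Nat.choose_one_right]
    have : ∑ x ∈ Finset.univ.erase j, (Function.update w j (w j + 1) x + 1).choose 2 =
        ∑ x ∈ Finset.univ.erase j, (w x + 1).choose 2 :=
      Finset.sum_congr rfl fun x hx => by rw [Function.update_of_ne (Finset.ne_of_mem_erase hx)]
    rw [this]
    simp only [Nat.succ_eq_add_one, Nat.reduceAdd]
    omega
  rw [hsum] at h2
  -- the kernel
  have hκ : (LinearMap.ker (rho P d w j)).map (forms P d w).subtype ≤
      forms P d (Function.update w j (w j + 1)) := by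
    rintro _ ⟨F, hF, rfl⟩
    exact ker_rho (LinearMap.mem_ker.1 hF)
  have hker : Module.finrank k (LinearMap.ker (rho P d w j)) ≤
      (d + 2).choose 2 - ((w j + 1) + ∑ i, (w i + 1).choose 2) := by
    rw [← h2]
    have := hfinF (Function.update w j (w j + 1))
    rw [← Submodule.finrank_map_subtype_eq]
    exact Submodule.finrank_mono hκ
  have := hfinF w
  rcases Nat.eq_zero_or_pos ((d + 2).choose 2 - ((w j + 1) + ∑ i, (w i + 1).choose 2)) with h0 | h0
  · left
    rw [h0, Nat.le_zero] at hker
    rw [← LinearMap.ker_eq_bot]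
    exact Submodule.finrank_eq_zero.1 hker
  · right
    obtain ⟨hfin2, hb⟩ := binary_le (k := k) (w j)
    have hrn := LinearMap.finrank_range_add_finrank_ker (rho P d w j)
    rw [← LinearMap.range_eq_top]
    apply Submodule.eq_top_of_finrank_eq
    have hle2 := Submodule.finrank_le (LinearMap.range (rho P d w j))
    omega

/-- maximal rank on lines and conics, in terms of dimensions -/
theorem dims_of {n e m : ℕ} (he : e = 1 ∨ e = 2) {P : Fin n → Fin 2 → k} {d : ℕ}
    {w : Fin n → ℕ} (hm : 1 ≤ m) (hn2 : 10 ≤ n) (hw : ∀ i, w i = m ∨ w i = m + 1)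
    (S : Finset (Fin n)) (hS : ∀ i ∈ S, w i = m + 1) (hc : S.card = 3 * e - 1) (hed : e ≤ d)
    (h1 : Module.finrank k ↥(forms P d w) = (d + 2).choose 2 - ∑ i, (w i + 1).choose 2)
    (h2 : Module.finrank k ↥(forms P (d - e) fun i => if i ∈ S then w i - 1 else w i) =
      (d - e + 2).choose 2 - ∑ i, ((if i ∈ S then w i - 1 else w i) + 1).choose 2) :
    Module.finrank k ↥(forms P (d - e) fun i => if i ∈ S then w i - 1 else w i) = 0 ∨
      (Module.finrank k ↥(forms P d w) : ℤ) =
        Module.finrank k ↥(forms P (d - e) fun i => if i ∈ S then w i - 1 else w i) +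
          (((e : ℤ) * d - ∑ i ∈ S, (w i : ℤ)) + 1) := by
  classical
  rcases Nat.eq_zero_or_pos ((d - e + 2).choose 2 -
    ∑ i, ((if i ∈ S then w i - 1 else w i) + 1).choose 2) with h0 | h0
  · left
    rw [h2, h0]
  right
  -- the sum
  have hsum : ∑ i, (w i + 1).choose 2 =
      ∑ i, ((if i ∈ S then w i - 1 else w i) + 1).choose 2 + S.card * (m + 1) := by
    have e1 : ∀ i, (w i + 1).choose 2 = ((if i ∈ S then w i - 1 else w i) + 1).choose 2 +
        if i ∈ S then (m + 1) else 0 := by
      intro i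
      by_cases hi : i ∈ S
      · rw [if_pos hi, if_pos hi, hS i hi, Nat.add_sub_cancel, Nat.choose_succ_succ (m + 1) 1,
          Nat.choose_one_right]
        simp only [Nat.succ_eq_add_one, Nat.reduceAdd]
        omega
      · rw [if_neg hi, if_neg hi, add_zero]
    rw [Finset.sum_congr rfl fun i _ => e1 i, Finset.sum_add_distrib]
    congr 1
    rw [Finset.sum_ite_mem, Finset.univ_inter, Finset.sum_const, smul_eq_mul]
  have hsumS : ∑ i ∈ S, (w i : ℤ) = S.card * (m + 1) := by
    rw [Finset.sum_congr rfl fun i hi => by rw [hS i hi], Finset.sum_const]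
    simp
  -- lower bound for the sum
  have hlow : n * (m * (m + 1)) ≤ 2 * ∑ i, ((if i ∈ S then w i - 1 else w i) + 1).choose 2 := by
    rw [Finset.mul_sum]
    have : n * (m * (m + 1)) = ∑ _i : Fin n, m * (m + 1) := by simp
    rw [this]
    refine Finset.sum_le_sum fun i _ => ?_
    have h3 : m ≤ (if i ∈ S then w i - 1 else w i) := by
      split_ifs with hi
      · rw [hS i hi]; omega
      · rcases hw i with h | h <;> omega
    have h4 : (m + 1).choose 2 ≤ ((if i ∈ S then w i - 1 else w i) + 1).choose 2 :=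
      Nat.choose_le_choose 2 (by omega)
    have h5 : 2 * (m + 1).choose 2 = m * (m + 1) := by
      rw [Nat.choose_two_right, Nat.add_sub_cancel, mul_comm (m + 1) m]
      exact Nat.mul_div_cancel' (Nat.even_mul_succ_self m).two_dvd
    omega
  obtain ⟨A, hA⟩ : ∃ A, A = ∑ i, ((if i ∈ S then w i - 1 else w i) + 1).choose 2 := ⟨_, rfl⟩
  obtain ⟨B, hB⟩ : ∃ B, B = ∑ i, (w i + 1).choose 2 := ⟨_, rfl⟩
  obtain ⟨f, hf⟩ : ∃ f, d = f + e := ⟨d - e, by omega⟩
  rw [h1, h2, hsumS]
  rw [← hA] at h0 hlow hsum ⊢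
  rw [← hB] at hsum ⊢
  subst hf
  rw [Nat.add_sub_cancel] at h0 ⊢
  have hch : 2 * (f + 2).choose 2 = (f + 2) * (f + 1) := by
    rw [Nat.choose_two_right]
    have h6 : 2 ∣ (f + 2) * (f + 1) :=
      (Nat.even_mul_succ_self (f + 1) |>.two_dvd).trans (by rw [mul_comm])
    have : f + 2 - 1 = f + 1 := by omega
    rw [this]
    omega
  have hch2 : (f + e + 2).choose 2 = (f + 2).choose 2 + (e * (f + e) + 1) := by
    rcases he with rfl | rfl
    · rw [Nat.choose_succ_succ (f + 2) 1, Nat.choose_one_right]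
      simp only [Nat.succ_eq_add_one, Nat.reduceAdd]
      omega
    · rw [Nat.choose_succ_succ (f + 1 + 2) 1, Nat.choose_succ_succ (f + 2) 1,
        Nat.choose_one_right, Nat.choose_one_right]
      simp only [Nat.succ_eq_add_one, Nat.reduceAdd]
      omega
  -- the degree is large
  have hf1 : 10 * (m * (m + 1)) < (f + 2) * (f + 1) := by
    have : 10 * (m * (m + 1)) ≤ n * (m * (m + 1)) := Nat.mul_le_mul_right _ hn2
    omega
  have hf2 : 5 * m ≤ 2 * f := by
    by_contra hcon
    push Not at hcon
    have h8 : (2 * f + 4) * (2 * f + 2) ≤ (5 * m + 3) * (5 * m + 1) :=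
      Nat.mul_le_mul (by omega) (by omega)
    nlinarith
  rw [hch2]
  rcases he with rfl | rfl
  · rw [hc] at hsum ⊢
    push_cast
    omega
  · rw [hc] at hsum ⊢
    push_cast
    omega

end Pool.Agent.TH941.MR
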