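import Pool.Agent.TH941.MR.Lead

/-! Surjectivity of the restriction to an exceptional curve passes to the next degree (helper941). -/

set_option autoImplicit false

namespace Pool.Agent.TH941.MR

open MvPolynomial

variable {k : Type} [Field k]

theorem hc_X_mul (i : Fin 2) (n : ℕ) (a : MvPolynomial (Fin 2) k) :
    homogeneousComponent (n + 1) (X i * a) = X i * homogeneousComponent n a := by
  classical
  ext s
  rw [coeff_homogeneousComponent, coeff_X_mul', coeff_X_mul', coeff_homogeneousComponent]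
  by_cases hi : i ∈ s.support
  · have h1 : (s - Finsupp.single i 1).degree + 1 = s.degree := by
      have h2 : s - Finsupp.single i 1 + Finsupp.single i 1 = s := by
        apply tsub_add_cancel_of_le
        rw [Finsupp.single_le_iff]
        exact Nat.one_le_iff_ne_zero.2 (Finsupp.mem_support_iff.1 hi)
      conv_rhs => rw [← h2]
      rw [map_add, Finsupp.degree_single]
    rw [if_pos hi, if_pos hi]
    by_cases h3 : s.degree = n + 1
    · rw [if_pos h3, if_pos (by omega)]
    · rw [if_neg h3, if_neg (by omega)]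
  · rw [if_neg hi, if_neg hi, ite_self]

theorem surj_up {n : ℕ} {P : Fin n → Fin 2 → k} {d : ℕ} {v w : Fin n → ℕ} {j : Fin n}
    (hj : w j = v j + 1) (hi : ∀ i, i ≠ j → w i = v i) (h : Function.Surjective (rho P d v j)) :
    Function.Surjective (rho P (d + 1) w j) := by
  classical
  rintro ⟨φ, hφ⟩
  have hφ' : φ.IsHomogeneous (w j) := hφ
  have hmem : φ ∈ (Ideal.span {X 0, X 1} : Ideal (MvPolynomial (Fin 2) k)) := by
    have h1 : φ ∈ idealOfVars (Fin 2) k ^ 1 := by
      rw [mem_pow_idealOfVars_iff]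
      intro s hs
      have h2 := hφ' (mem_support_iff.1 hs)
      have h3 : s.degree = w j := by
        rw [Finsupp.degree_eq_weight_one]
        exact h2
      omega
    rw [pow_one] at h1
    refine (Ideal.span_le.2 ?_ : idealOfVars (Fin 2) k ≤ _) h1
    rintro _ ⟨i, rfl⟩
    fin_cases i
    · exact Ideal.subset_span (Or.inl rfl)
    · exact Ideal.subset_span (Or.inr rfl)
  rw [Ideal.mem_span_pair] at hmem
  obtain ⟨a, b, hab⟩ := hmem
  obtain ⟨G1, hG1⟩ := h ⟨homogeneousComponent (v j) a, homogeneousComponent_mem _ _⟩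
  obtain ⟨G2, hG2⟩ := h ⟨homogeneousComponent (v j) b, homogeneousComponent_mem _ _⟩
  have hG1' : homogeneousComponent (v j) (loc (P j) G1) = homogeneousComponent (v j) a := by
    rw [← rho_apply, hG1]
  have hG2' : homogeneousComponent (v j) (loc (P j) G2) = homogeneousComponent (v j) b := by
    rw [← rho_apply, hG2]
  have hl0 : loc (P j) (X 0 - C (P j 0) * X 2) = X 0 := by simp [loc]
  have hl1 : loc (P j) (X 1 - C (P j 1) * X 2) = X 1 := by simp [loc]
  have hmemF : ∀ (ℓ : MvPolynomial (Fin 3) k), ℓ.IsHomogeneous 1 →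
      ℓ ∈ (Ideal.span {X 0 - C (P j 0) * X 2, X 1 - C (P j 1) * X 2} :
        Ideal (MvPolynomial (Fin 3) k)) → ∀ G ∈ forms P d v, ℓ * G ∈ forms P (d + 1) w := by
    intro ℓ hℓ hℓI G hG
    obtain ⟨hA, hB⟩ := hG
    have hA' : G.IsHomogeneous d := hA
    have hB' : G ∈ (⨅ i : Fin n, (Ideal.span {X 0 - C (P i 0) * X 2,
      X 1 - C (P i 1) * X 2} : Ideal (MvPolynomial (Fin 3) k)) ^ (v i)) := hB
    refine ⟨?_, ?_⟩
    · have := hℓ.mul hA'
      rw [add_comm] at this
      exact this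
    · show ℓ * G ∈ (⨅ i : Fin n, (Ideal.span {X 0 - C (P i 0) * X 2,
        X 1 - C (P i 1) * X 2} : Ideal (MvPolynomial (Fin 3) k)) ^ (w i))
      rw [Ideal.mem_iInf] at hB' ⊢
      intro i
      by_cases hij : i = j
      · rw [hij, hj, pow_succ']
        exact Ideal.mul_mem_mul hℓI (hB' j)
      · rw [hi i hij]
        exact Ideal.mul_mem_left _ _ (hB' i)
  have hh0 : (X 0 - C (P j 0) * X 2 : MvPolynomial (Fin 3) k).IsHomogeneous 1 :=
    (isHomogeneous_X _ _).sub (isHomogeneous_C_mul_X _ _)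
  have hh1 : (X 1 - C (P j 1) * X 2 : MvPolynomial (Fin 3) k).IsHomogeneous 1 :=
    (isHomogeneous_X _ _).sub (isHomogeneous_C_mul_X _ _)
  refine ⟨⟨(X 0 - C (P j 0) * X 2) * (G1 : MvPolynomial (Fin 3) k) +
      (X 1 - C (P j 1) * X 2) * (G2 : MvPolynomial (Fin 3) k),
    (forms P (d + 1) w).add_mem (hmemF _ hh0 (Ideal.subset_span (Or.inl rfl)) _ G1.2)
      (hmemF _ hh1 (Ideal.subset_span (Or.inr rfl)) _ G2.2)⟩, ?_⟩
  apply Subtype.ext
  rw [rho_apply]
  show homogeneousComponent (w j) (loc (P j) ((X 0 - C (P j 0) * X 2) * (G1 : MvPolynomial (Fin 3) k) +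
    (X 1 - C (P j 1) * X 2) * (G2 : MvPolynomial (Fin 3) k))) = φ
  rw [map_add, map_mul, map_mul, hl0, hl1, map_add, hj, hc_X_mul, hc_X_mul, hG1', hG2',
    ← hc_X_mul, ← hc_X_mul, ← map_add, mul_comm (X 0) a, mul_comm (X 1) b, hab, ← hj]
  rw [homogeneousComponent_of_mem hφ, if_pos rfl]

end Pool.Agent.TH941.MR
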